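import Mathlib
import Pool.Prelude.Def_F_d420a142
import Pool.Agent.Work.MP_992d6e_an.Final

/-!
Cubically many nondegenerate equilibria of point charges.
-/

namespace Pool.Agent.Results.MP_992d6e_an.CubicLower

open N62f3cee0
open scoped Gradient

lemma arith (n : ℕ) (hn : 165 ≤ n) : 243 * (n - 1) ^ 2 < 2 * (n - 16) ^ 3 := by
  obtain ⟨m, rfl⟩ : ∃ m, n = m + 165 := ⟨n - 165, by omega⟩
  have e1 : m + 165 - 16 = m + 149 := by omega
  have e2 : m + 165 - 1 = m + 164 := by omega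
  rw [e1, e2]
  have e : 2 * (m + 149) ^ 3 = 243 * (m + 164) ^ 2 +
      (2 * m ^ 3 + 651 * m ^ 2 + 53502 * m + 80170) := by ring
  rw [e]
  exact Nat.lt_add_of_pos_right (by positivity)

lemma arith2 (C d : ℕ) (hd : d ≤ 2) :
    ∃ n : ℕ, 1 ≤ n ∧ 243 * (C * n ^ d) < 2 * (n - 16) ^ 3 := by
  obtain ⟨m, hm, hm1⟩ : ∃ m : ℕ, 243 * 289 * C < m ∧ 0 < m := ⟨243 * 289 * C + 1, by omega, by omega⟩
  refine ⟨m + 16, by omega, ?_⟩
  have e1 : m + 16 - 16 = m := by omega
  rw [e1]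
  have h8 : (m + 16) ^ d ≤ (17 * m) ^ 2 :=
    (Nat.pow_le_pow_right (by omega) hd).trans (Nat.pow_le_pow_left (by omega) 2)
  calc 243 * (C * (m + 16) ^ d) ≤ 243 * (C * (17 * m) ^ 2) :=
        Nat.mul_le_mul_left _ (Nat.mul_le_mul_left _ h8)
    _ = (243 * 289 * C) * m ^ 2 := by ring
    _ < (2 * m) * m ^ 2 := Nat.mul_lt_mul_of_pos_right (by omega) (by positivity)
    _ = 2 * m ^ 3 := by ring

/-- (i) For every `n ≥ 1` there are `n` nonzero charges at distinct points of `ℝ³` all of whose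
equilibria are nondegenerate and whose number `N` of equilibria satisfies
`2 (n - 16)^3 ≤ 243 N` (truncated subtraction).
(ii) For every `n ≥ 165` there is such a configuration with more than `(n-1)^2` equilibria.
(iii) If `C, d` are as in the problem then `d ≥ 3`. -/
theorem result :
    (∀ n : ℕ, 1 ≤ n → ∃ (q : Fin n → ℝ) (a : Fin n → EuclideanSpace ℝ (Fin 3)),
      Function.Injective a ∧ (∀ j, q j ≠ 0) ∧
      (∀ x ∈ equilibria q a, HasNondegenerateHessianAt (potential q a) x) ∧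
      ((2 * (n - 16) ^ 3 : ℕ) : ℕ∞) ≤ 243 * (equilibria q a).encard) ∧
    (∀ n : ℕ, 165 ≤ n → ∃ (q : Fin n → ℝ) (a : Fin n → EuclideanSpace ℝ (Fin 3)),
      Function.Injective a ∧ (∀ j, q j ≠ 0) ∧
      (∀ x ∈ equilibria q a, HasNondegenerateHessianAt (potential q a) x) ∧
      (((n - 1) ^ 2 : ℕ) : ℕ∞) < (equilibria q a).encard) ∧
    (∀ C d : ℕ, (∀ (n : ℕ), 0 < n → ∀ (q : Fin n → ℝ) (a : Fin n → EuclideanSpace ℝ (Fin 3)),
      Function.Injective a → (∀ j, q j ≠ 0) →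
      (∀ x ∈ equilibria q a, HasNondegenerateHessianAt (potential q a) x) →
      (equilibria q a).encard ≤ (C * n ^ d : ℕ)) → 3 ≤ d) := by
  refine ⟨fun n hn => PC992.cubic n hn, ?_, ?_⟩
  · intro n hn
    obtain ⟨q, a, h1, h2, h3, h4⟩ := PC992.cubic n (by omega)
    refine ⟨q, a, h1, h2, h3, ?_⟩
    by_contra hcon
    rw [not_lt] at hcon
    have h5 : (243 : ℕ∞) * (equilibria q a).encard ≤ ((243 * (n - 1) ^ 2 : ℕ) : ℕ∞) := by
      push_cast at hcon ⊢
      gcongr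
    have h6 : 2 * (n - 16) ^ 3 ≤ 243 * (n - 1) ^ 2 := by
      exact_mod_cast h4.trans h5
    exact absurd h6 (not_le.mpr (arith n hn))
  · intro C d h
    by_contra hd
    obtain ⟨n, hn, hlt⟩ := arith2 C d (by omega)
    obtain ⟨q, a, h1, h2, h3, h4⟩ := PC992.cubic n hn
    have h5 := h n hn q a h1 h2 h3
    have h6 : (243 : ℕ∞) * (equilibria q a).encard ≤ ((243 * (C * n ^ d) : ℕ) : ℕ∞) := by
      push_cast at h5 ⊢
      gcongr
    have h7 : 2 * (n - 16) ^ 3 ≤ 243 * (C * n ^ d) := by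
      exact_mod_cast h4.trans h6
    exact absurd h7 (not_le.mpr hlt)

end Pool.Agent.Results.MP_992d6e_an.CubicLower
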