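import Mathlib
import Pool.Prelude.Def_F_d420a142
import Pool.Agent.Work.MP_992d6e_an.WC.Fin
import Pool.Agent.Work.MP_992d6e_an.LG.AFin
import Pool.Agent.Work.MP_992d6e_an.CC.Fin

/-!
The largest number of equilibria of condition number at most `M` of `n` point charges: at most
`C n^21 (log M)^4`, and at least `2 (n - 16)^3 / 243` for `M ≥ 3 * 10^8 * n^4`.
-/

set_option autoImplicit false

namespace Pool.Agent.Results.MP_992d6e_an.LogCondition

open N62f3cee0
open scoped Gradient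

/-- The Hessian of `V` at `x`. -/
noncomputable def hess (V : EuclideanSpace ℝ (Fin 3) → ℝ) (x v w : EuclideanSpace ℝ (Fin 3)) : ℝ :=
  iteratedFDeriv ℝ 2 V x ![v, w]

/-- `x` has condition number at most `M`: there are `σ > 0`, `κ ≥ 1` and `0 < ρ < 1` with
`κ / ρ ≤ M` such that all singular values of the Hessian at `x` are between `σ` and `κ σ`, and such
that the Hessian varies by at most `σ / 4` on the set of points whose distance to `x` is at most
`ρ` times the distance of `x` to the nearest charge. -/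
def CondLE {n : ℕ} (q : Fin n → ℝ) (a : Fin n → EuclideanSpace ℝ (Fin 3)) (M : ℝ)
    (x : EuclideanSpace ℝ (Fin 3)) : Prop :=
  ∃ σ κ ρ : ℝ, 0 < σ ∧ 1 ≤ κ ∧ 0 < ρ ∧ ρ < 1 ∧ κ ≤ M * ρ ∧
    (∀ v, ∃ w, ‖w‖ ≤ 1 ∧ σ * ‖v‖ ≤ |hess (potential q a) x v w|) ∧
    (∀ v w, |hess (potential q a) x v w| ≤ κ * σ * ‖v‖ * ‖w‖) ∧
    (∀ y, (∀ j, dist y x ≤ ρ * dist x (a j)) → ∀ v w,
      |hess (potential q a) y v w - hess (potential q a) x v w| ≤ σ / 4 * ‖v‖ * ‖w‖)

/-- The equilibria of condition number at most `M`. -/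
def wellCond {n : ℕ} (q : Fin n → ℝ) (a : Fin n → EuclideanSpace ℝ (Fin 3)) (M : ℝ) :
    Set (EuclideanSpace ℝ (Fin 3)) :=
  {x ∈ equilibria q a | CondLE q a M x}

/-- (i) At most `C n^21 (log M)^4` equilibria of a configuration of `n` charges have condition
number at most `M`.
(ii) A configuration of `n` charges all of whose equilibria have condition number at most
`exp (n^k)` has at most `C n^(21+4k)` equilibria.
(iii) At most `42000000 n^5 M^2` equilibria have condition number at most `M`.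
(iv) An equilibrium is nondegenerate if and only if it has condition number at most `M` for
some `M`.
(v) For every `n ≥ 1` there are `n` nonzero charges at distinct points with at least
`2 (n - 16)^3 / 243` equilibria of condition number at most `3 * 10^8 * n^4` (hence at most `M`, for
every larger `M`). -/
theorem result :
    (∃ C : ℝ, 0 < C ∧
      ∀ (n : ℕ) (q : Fin n → ℝ) (a : Fin n → EuclideanSpace ℝ (Fin 3)) (M : ℝ), 1 ≤ n → 2 ≤ M →
        (wellCond q a M).Finite ∧ ((wellCond q a M).ncard : ℝ) ≤ C * n ^ 21 * Real.log M ^ 4) ∧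
    (∃ C : ℕ, ∀ (k n : ℕ) (q : Fin n → ℝ) (a : Fin n → EuclideanSpace ℝ (Fin 3)), 1 ≤ n →
      (∀ x ∈ equilibria q a, CondLE q a (Real.exp ((n : ℝ) ^ k)) x) →
      (equilibria q a).encard ≤ ((C * n ^ (21 + 4 * k) : ℕ) : ℕ∞)) ∧
    (∀ (n : ℕ) (q : Fin n → ℝ) (a : Fin n → EuclideanSpace ℝ (Fin 3)) (M : ℝ),
      (wellCond q a M).Finite ∧ ((wellCond q a M).ncard : ℝ) ≤ 42000000 * n ^ 5 * M ^ 2) ∧
    (∀ n : ℕ, 0 < n → ∀ (q : Fin n → ℝ) (a : Fin n → EuclideanSpace ℝ (Fin 3)),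
      ∀ x ∈ equilibria q a,
        (∃ M : ℝ, CondLE q a M x) ↔ HasNondegenerateHessianAt (potential q a) x) ∧
    (∀ n : ℕ, 0 < n → ∃ (q : Fin n → ℝ) (a : Fin n → EuclideanSpace ℝ (Fin 3)),
      Function.Injective a ∧ (∀ j, q j ≠ 0) ∧ ∀ M : ℝ, 3 * 10 ^ 8 * (n : ℝ) ^ 4 ≤ M →
        2 / 243 * ((n : ℝ) - 16) ^ 3 ≤ (wellCond q a M).ncard) := by
  obtain ⟨C, hC, h⟩ := PC992LG.log_count
  have h1 : ∀ (n : ℕ) (q : Fin n → ℝ) (a : Fin n → EuclideanSpace ℝ (Fin 3)) (M : ℝ), 1 ≤ n →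
      2 ≤ M → (wellCond q a M).Finite ∧
        ((wellCond q a M).ncard : ℝ) ≤ C * n ^ 21 * Real.log M ^ 4 :=
    fun n q a M hn hM => h n q a M hn hM
  refine ⟨⟨C, hC, h1⟩, ⟨⌈C⌉₊, ?_⟩, ?_, ?_, ?_⟩
  · intro k n q a hn hx
    have hn1 : (1 : ℝ) ≤ n := by exact_mod_cast hn
    have hM : (2 : ℝ) ≤ Real.exp ((n : ℝ) ^ k) := by
      have h2 : (1 : ℝ) ≤ (n : ℝ) ^ k := one_le_pow₀ hn1
      have h3 := Real.add_one_le_exp ((n : ℝ) ^ k)
      linarith
    obtain ⟨h4, h5⟩ := h1 n q a _ hn hM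
    have h6 : wellCond q a (Real.exp ((n : ℝ) ^ k)) = equilibria q a := by
      ext x
      exact ⟨fun hx' => hx'.1, fun hx' => ⟨hx', hx x hx'⟩⟩
    rw [h6] at h4 h5
    rw [Real.log_exp, ← pow_mul, mul_assoc, ← pow_add] at h5
    have h7 : ((equilibria q a).ncard : ℝ) ≤ ((⌈C⌉₊ * n ^ (21 + 4 * k) : ℕ) : ℝ) := by
      push_cast
      refine h5.trans ?_
      rw [mul_comm k 4]
      gcongr
      exact Nat.le_ceil C
    have h8 : (equilibria q a).ncard ≤ ⌈C⌉₊ * n ^ (21 + 4 * k) := by exact_mod_cast h7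
    rw [← h4.cast_ncard_eq]
    exact_mod_cast h8
  · intro n q a M
    exact PC992WC.well_conditioned q a M
  · intro n hn q a x hx
    exact PC992WC.exists_condLE q a hn (fun j h => hx.1 ⟨j, h.symm⟩)
  · intro n hn
    obtain ⟨q, a, ha, hq, -, T, hT, hTw⟩ := PC992CC.cubic_cond n hn
    refine ⟨q, a, ha, hq, fun M hM => ?_⟩
    have hsub : (T : Set (EuclideanSpace ℝ (Fin 3))) ⊆ wellCond q a M := by
      intro x hx
      obtain ⟨hx1, σ, κ, ρ, c1, c2, c3, c4, c5, c6⟩ := hTw x (Finset.mem_coe.1 hx)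
      exact ⟨hx1, σ, κ, ρ, c1, c2, c3, c4,
        c5.trans (mul_le_mul_of_nonneg_right hM c3.le), c6⟩
    have hfin : (wellCond q a M).Finite := (PC992WC.well_conditioned q a M).1
    have hcard : T.card ≤ (wellCond q a M).ncard := by
      rw [← Set.ncard_coe_finset T]
      exact Set.ncard_le_ncard hsub hfin
    have hcard' : (T.card : ℝ) ≤ (wellCond q a M).ncard := by exact_mod_cast hcard
    have h9 : 2 * ((n : ℝ) - 16) ^ 3 ≤ 243 * T.card := by
      rcases Nat.lt_or_ge n 16 with h16 | h16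
      · have h10 : (n : ℝ) - 16 ≤ 0 := by
          have : (n : ℝ) ≤ 16 := by exact_mod_cast h16.le
          linarith
        have h11 : ((n : ℝ) - 16) ^ 3 ≤ 0 := by
          rw [pow_succ]
          exact mul_nonpos_of_nonneg_of_nonpos (sq_nonneg _) h10
        have h12 : (0 : ℝ) ≤ 243 * T.card := by positivity
        linarith
      · have h10 : ((2 * (n - 16) ^ 3 : ℕ) : ℝ) ≤ ((243 * T.card : ℕ) : ℝ) := by
          exact_mod_cast hT
        push_cast [h16] at h10
        exact h10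
    linarith

end Pool.Agent.Results.MP_992d6e_an.LogCondition
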