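import Mathlib
import Pool.Prelude.Def_F_d420a142
import Pool.Agent.Work.MP_992d6e_an.ST.Fin

/-!
Polynomially many equilibria for all positions and most strengths.
-/

set_option autoImplicit false

namespace Pool.Agent.Results.MP_992d6e_an.RandomStrengths

open N62f3cee0 MeasureTheory

/-- The box of the strengths `q` with `|q_j - μ_j| ≤ σ |μ_j|` for all `j`. -/
def box {n : ℕ} (μ : Fin n → ℝ) (σ : ℝ) : Set (Fin n → ℝ) := {q | ∀ j, |q j - μ j| ≤ σ * |μ j|}

/-- The nondegenerate equilibria. -/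
def nondeg {n : ℕ} (q : Fin n → ℝ) (a : Fin n → EuclideanSpace ℝ (Fin 3)) :
    Set (EuclideanSpace ℝ (Fin 3)) :=
  {x | x ∈ equilibria q a ∧ HasNondegenerateHessianAt (potential q a) x}

/-- Let `n ≥ 1` points `a_j` of `ℝ³` be given. The number of nondegenerate equilibria of the
charges `q_j` at `a_j` has a measurable majorant `G(q)` whose mean over every box
`|q_j - μ_j| ≤ σ |μ_j|` (`μ_j ≠ 0`, `0 < σ ≤ 1`) is at most `6912 n^12 / σ^3`. So in such a box all `q`
outside a part of measure `ε` times that of the box have at most `6912 n^12 / (σ^3 ε)`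
nondegenerate equilibria; and if the points are not collinear, all `q` outside such a part have
only nondegenerate equilibria and at most `6912 n^12 / (σ^3 ε)` of them. -/
theorem result (n : ℕ) (hn : 1 ≤ n) (a : Fin n → EuclideanSpace ℝ (Fin 3)) :
    (∃ G : (Fin n → ℝ) → ENNReal, Measurable G ∧
      (∀ q, ((nondeg q a).encard : ENNReal) ≤ G q) ∧
      ∀ μ : Fin n → ℝ, (∀ j, μ j ≠ 0) → ∀ σ : ℝ, 0 < σ → σ ≤ 1 →
        ∫⁻ q in box μ σ, G q ≤ ENNReal.ofReal (6912 * n ^ 12 / σ ^ 3) * volume (box μ σ)) ∧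
    ∀ μ : Fin n → ℝ, (∀ j, μ j ≠ 0) → ∀ σ : ℝ, 0 < σ → σ ≤ 1 → ∀ ε : ℝ, 0 < ε →
      volume {q ∈ box μ σ | ¬ ((nondeg q a).encard : ENNReal) ≤
        ENNReal.ofReal (6912 * n ^ 12 / (σ ^ 3 * ε))} ≤ ENNReal.ofReal ε * volume (box μ σ) ∧
      (¬ Collinear ℝ (Set.range a) →
        volume {q ∈ box μ σ | ¬ ((∀ x ∈ equilibria q a,
          HasNondegenerateHessianAt (potential q a) x) ∧
          ((equilibria q a).encard : ENNReal) ≤
            ENNReal.ofReal (6912 * n ^ 12 / (σ ^ 3 * ε)))} ≤
          ENNReal.ofReal ε * volume (box μ σ)) := by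
  obtain ⟨G, hG1, hG2, hG3⟩ := ST992.mean_qbox hn a
  refine ⟨⟨G, hG1, hG2, hG3⟩, fun μ hμ σ hσ hσ1 ε hε => ?_⟩
  have hn' : (1 : ℝ) ≤ n := by exact_mod_cast hn
  set K : ℝ := 6912 * n ^ 12 / (σ ^ 3 * ε) with hK
  have hKpos : 0 < K := by positivity
  have hbox : MeasurableSet (box μ σ) := by
    have : box μ σ = ⋂ j, {q | |q j - μ j| ≤ σ * |μ j|} := by
      ext q
      simp [box]
    rw [this]
    refine MeasurableSet.iInter fun j => ?_
    exact measurableSet_le (by fun_prop) measurable_const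
  -- Markov
  have hmain : volume {q ∈ box μ σ | ENNReal.ofReal K < G q} ≤
      ENNReal.ofReal ε * volume (box μ σ) := by
    have h1 : ENNReal.ofReal K * (volume.restrict (box μ σ)) {q | ENNReal.ofReal K ≤ G q} ≤
        ENNReal.ofReal (6912 * n ^ 12 / σ ^ 3) * volume (box μ σ) :=
      (mul_meas_ge_le_lintegral hG1 _).trans (hG3 μ hμ σ hσ hσ1)
    have h2 : ENNReal.ofReal (6912 * n ^ 12 / σ ^ 3) = ENNReal.ofReal K * ENNReal.ofReal ε := by
      rw [← ENNReal.ofReal_mul hKpos.le]
      congr 1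
      rw [hK]
      field_simp
    rw [h2, mul_assoc] at h1
    have h3 : (volume.restrict (box μ σ)) {q | ENNReal.ofReal K ≤ G q} ≤
        ENNReal.ofReal ε * volume (box μ σ) :=
      (ENNReal.mul_le_mul_iff_right (ENNReal.ofReal_pos.mpr hKpos).ne'
        ENNReal.ofReal_ne_top).mp h1
    refine le_trans ?_ h3
    rw [Measure.restrict_apply (measurableSet_le measurable_const hG1)]
    exact measure_mono fun q hq => ⟨hq.2.le, hq.1⟩
  constructor
  · refine (measure_mono ?_).trans hmain
    rintro q ⟨h1, h2⟩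
    exact ⟨h1, (not_le.mp h2).trans_le (hG2 q)⟩
  · intro ha
    have hae := ST992.ae_nondeg a ha
    have hnull : volume {q : Fin n → ℝ | ¬ ∀ x ∈ equilibria q a,
        HasNondegenerateHessianAt (potential q a) x} = 0 := hae
    have hsub : {q ∈ box μ σ | ¬ ((∀ x ∈ equilibria q a,
          HasNondegenerateHessianAt (potential q a) x) ∧
          ((equilibria q a).encard : ENNReal) ≤ ENNReal.ofReal K)} ⊆
        {q | ¬ ∀ x ∈ equilibria q a, HasNondegenerateHessianAt (potential q a) x} ∪
          {q ∈ box μ σ | ENNReal.ofReal K < G q} := by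
      rintro q ⟨h1, h2⟩
      by_cases h3 : ∀ x ∈ equilibria q a, HasNondegenerateHessianAt (potential q a) x
      · right
        refine ⟨h1, ?_⟩
        have h4 : equilibria q a = nondeg q a := by
          ext x
          exact ⟨fun hx => ⟨hx, h3 x hx⟩, fun hx => hx.1⟩
        have h5 : ¬ ((equilibria q a).encard : ENNReal) ≤ ENNReal.ofReal K :=
          fun h => h2 ⟨h3, h⟩
        rw [h4] at h5
        exact (not_le.mp h5).trans_le (hG2 q)
      · left
        exact h3
    calc volume {q ∈ box μ σ | ¬ ((∀ x ∈ equilibria q a,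
          HasNondegenerateHessianAt (potential q a) x) ∧
          ((equilibria q a).encard : ENNReal) ≤ ENNReal.ofReal K)}
        ≤ volume {q : Fin n → ℝ | ¬ ∀ x ∈ equilibria q a,
            HasNondegenerateHessianAt (potential q a) x} +
          volume {q ∈ box μ σ | ENNReal.ofReal K < G q} :=
          (measure_mono hsub).trans (measure_union_le _ _)
      _ ≤ _ := by
          rw [hnull, zero_add]
          exact hmain

end Pool.Agent.Results.MP_992d6e_an.RandomStrengths
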