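import Mathlib
import Pool.Prelude.Def_F_d420a142
import Pool.Agent.Work.MP_992d6e_an.SM.One
import Pool.Agent.Work.MP_992d6e_an.SM.All

/-!
Smoothed analysis of the number of equilibria of point charges.
-/

set_option autoImplicit false

namespace Pool.Agent.Results.MP_992d6e_an.SmoothedBound

open N62f3cee0 MeasureTheory Metric

/-- moving one charge by a small amount -/
lemma move (C : ℝ) (hC : 0 < C)
    (h : ∀ (n : ℕ) (q : Fin n → ℝ) (a : Fin n → EuclideanSpace ℝ (Fin 3)) (l : Fin n)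
      (d Λ t : ℝ) (μ : Measure (EuclideanSpace ℝ (Fin 3))),
      (∀ j, q j ≠ 0) → (∀ j, j ≠ l → ‖a j‖ ≤ 1) → 0 < d → d ≤ 1 →
      (∀ i j, i ≠ l → j ≠ l → i ≠ j → d ≤ dist (a i) (a j)) → 1 ≤ Λ →
      μ ≤ ENNReal.ofReal Λ • volume.restrict (closedBall 0 1) → 0 ≤ t →
      μ {z : EuclideanSpace ℝ (Fin 3) | ¬ ((equilibria q (Function.update a l z)).Finite ∧
        ((equilibria q (Function.update a l z)).ncard : ℝ) ≤
          C * n * (t + Real.log (2 * n * Λ * (∑ j, |q j|) / (d * |q l|))) ^ 4)} ≤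
        ENNReal.ofReal (Real.exp (-t)))
    (n : ℕ) (q : Fin n → ℝ) (a : Fin n → EuclideanSpace ℝ (Fin 3)) (l : Fin n) (d σ : ℝ)
    (hq : ∀ j, q j ≠ 0) (ha : ∀ j, ‖a j‖ ≤ 1) (hd : 0 < d) (hd1 : d ≤ 1)
    (hsep : ∀ i j, i ≠ l → j ≠ l → i ≠ j → d ≤ dist (a i) (a j)) (hσ : 0 < σ) (hσ1 : σ ≤ 1) :
    ∃ z, dist z (a l) ≤ σ ∧ (equilibria q (Function.update a l z)).Finite ∧
      ((equilibria q (Function.update a l z)).ncard : ℝ) ≤
        (2401 * C) * n * Real.log (2 * n * (∑ j, |q j|) / (d * σ * |q l|)) ^ 4 := by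
  set c : EuclideanSpace ℝ (Fin 3) := (1 - σ / 2) • a l with hc
  set V : ℝ := (σ / 2) ^ 3 * (Real.pi * 4 / 3) with hV
  have hpi := Real.pi_pos
  have hVpos : 0 < V := by positivity
  have hpi4 : Real.pi ≤ 4 := Real.pi_le_four
  have hV1 : V ≤ 1 := by
    have h1 : (σ / 2) ^ 3 ≤ (1 / 2) ^ 3 := by gcongr
    have h2 : Real.pi * 4 / 3 ≤ 16 / 3 := by linarith
    calc V ≤ (1 / 2) ^ 3 * (16 / 3) := by rw [hV]; gcongr
      _ ≤ 1 := by norm_num
  have hvol : volume (closedBall c (σ / 2)) = ENNReal.ofReal V := by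
    rw [EuclideanSpace.volume_closedBall_fin_three, ← ENNReal.ofReal_pow (by positivity),
      ← ENNReal.ofReal_mul (by positivity)]
  have hsub : closedBall c (σ / 2) ⊆ closedBall (0 : EuclideanSpace ℝ (Fin 3)) 1 := by
    intro z hz
    rw [mem_closedBall, dist_zero_right]
    rw [mem_closedBall, dist_eq_norm] at hz
    have h1 : ‖c‖ ≤ 1 - σ / 2 := by
      rw [hc, norm_smul, Real.norm_eq_abs, abs_of_nonneg (by linarith)]
      calc (1 - σ / 2) * ‖a l‖ ≤ (1 - σ / 2) * 1 := by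
            exact mul_le_mul_of_nonneg_left (ha l) (by linarith)
        _ = 1 - σ / 2 := mul_one _
    calc ‖z‖ = ‖(z - c) + c‖ := by rw [sub_add_cancel]
      _ ≤ ‖z - c‖ + ‖c‖ := norm_add_le _ _
      _ ≤ 1 := by linarith
  have hclose : ∀ z ∈ closedBall c (σ / 2), dist z (a l) ≤ σ := by
    intro z hz
    rw [mem_closedBall] at hz
    have h1 : dist c (a l) ≤ σ / 2 := by
      have e : c - a l = -((σ / 2) • a l) := by rw [hc, sub_smul, one_smul]; abel
      rw [dist_eq_norm, e, norm_neg, norm_smul, Real.norm_eq_abs, abs_of_nonneg (by linarith)]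
      calc (σ / 2) * ‖a l‖ ≤ (σ / 2) * 1 := mul_le_mul_of_nonneg_left (ha l) (by linarith)
        _ = σ / 2 := mul_one _
    calc dist z (a l) ≤ dist z c + dist c (a l) := dist_triangle _ _ _
      _ ≤ σ := by linarith
  set μ : Measure (EuclideanSpace ℝ (Fin 3)) :=
    ENNReal.ofReal V⁻¹ • volume.restrict (closedBall c (σ / 2)) with hμ
  have hμle : μ ≤ ENNReal.ofReal V⁻¹ • volume.restrict (closedBall 0 1) := by
    rw [hμ]
    intro s
    simp only [Measure.smul_apply, smul_eq_mul]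
    exact mul_le_mul_right (Measure.restrict_mono_set _ hsub s) _
  have h1 := h n q a l d V⁻¹ 1 μ hq (fun j _ => ha j) hd hd1 hsep
    ((one_le_inv₀ hVpos).2 hV1) hμle zero_le_one
  have hμB : μ (closedBall c (σ / 2)) = 1 := by
    rw [hμ, Measure.smul_apply, Measure.restrict_apply_self, hvol, smul_eq_mul,
      ← ENNReal.ofReal_mul (by positivity), inv_mul_cancel₀ hVpos.ne', ENNReal.ofReal_one]
  have hlt : ENNReal.ofReal (Real.exp (-1)) < 1 := by
    rw [ENNReal.ofReal_lt_one]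
    rw [Real.exp_lt_one_iff]
    norm_num
  obtain ⟨z, hzB, hz⟩ : ∃ z ∈ closedBall c (σ / 2),
      (equilibria q (Function.update a l z)).Finite ∧
        ((equilibria q (Function.update a l z)).ncard : ℝ) ≤
          C * n * (1 + Real.log (2 * n * V⁻¹ * (∑ j, |q j|) / (d * |q l|))) ^ 4 := by
    by_contra hcon
    push Not at hcon
    have h2 : closedBall c (σ / 2) ⊆ {z : EuclideanSpace ℝ (Fin 3) |
        ¬ ((equilibria q (Function.update a l z)).Finite ∧
        ((equilibria q (Function.update a l z)).ncard : ℝ) ≤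
          C * n * (1 + Real.log (2 * n * V⁻¹ * (∑ j, |q j|) / (d * |q l|))) ^ 4)} := by
      intro z hz hz2
      exact absurd hz2.2 (not_le.2 (hcon z hz hz2.1))
    have h3 := (measure_mono h2).trans h1
    rw [hμB] at h3
    exact absurd h3 (not_le.2 hlt)
  refine ⟨z, hclose z hzB, hz.1, hz.2.trans ?_⟩
  -- the logarithms
  set S : ℝ := ∑ j, |q j| with hS
  have hql : 0 < |q l| := abs_pos.2 (hq l)
  have hSl : |q l| ≤ S := Finset.single_le_sum (f := fun j => |q j|)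
    (fun j _ => abs_nonneg _) (Finset.mem_univ l)
  have hSpos : 0 < S := hql.trans_le hSl
  have hn : (1 : ℝ) ≤ n := by
    have : 0 < n := Fin.pos l
    exact_mod_cast this
  set Y : ℝ := 2 * n * S / (d * σ * |q l|) with hY
  have hYσ : 2 / σ ≤ Y := by
    rw [hY, div_le_div_iff₀ hσ (by positivity)]
    have h5 : d * |q l| ≤ n * S := by
      calc d * |q l| ≤ 1 * S := by gcongr
        _ ≤ n * S := by gcongr
    nlinarith [mul_le_mul_of_nonneg_left h5 hσ.le]
  have hY2 : 2 ≤ Y := by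
    refine le_trans ?_ hYσ
    rw [le_div_iff₀ hσ]
    linarith
  have hYpos : 0 < Y := by linarith
  have hlogY : 1 / 2 ≤ Real.log Y := by
    have h5 : Real.log 2 ≤ Real.log Y := Real.log_le_log (by norm_num) hY2
    have h6 := Real.log_two_gt_d9
    linarith
  have hX : 2 * n * V⁻¹ * S / (d * |q l|) ≤ Y ^ 4 := by
    have e : 2 * n * V⁻¹ * S / (d * |q l|) = Y * (6 / (Real.pi * σ ^ 2)) := by
      rw [hY, hV]
      field_simp
      ring
    rw [e]
    have h5 : 6 / (Real.pi * σ ^ 2) ≤ (2 / σ) ^ 2 := by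
      rw [div_pow, div_le_div_iff₀ (by positivity) (by positivity)]
      nlinarith [Real.pi_gt_three, sq_nonneg σ]
    have h6 : (2 / σ) ^ 2 ≤ Y ^ 2 := by gcongr
    have h7 : Y ^ 2 ≤ Y ^ 3 := by
      have : (1 : ℝ) ≤ Y := by linarith
      exact pow_le_pow_right₀ this (by norm_num)
    calc Y * (6 / (Real.pi * σ ^ 2)) ≤ Y * Y ^ 3 := by
          exact mul_le_mul_of_nonneg_left (h5.trans (h6.trans h7)) hYpos.le
      _ = Y ^ 4 := by ring
  have hXpos : 0 < 2 * n * V⁻¹ * S / (d * |q l|) := by positivity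
  have hlogX : Real.log (2 * n * V⁻¹ * S / (d * |q l|)) ≤ 4 * Real.log Y := by
    have h5 := Real.log_le_log hXpos hX
    rwa [Real.log_pow, Nat.cast_ofNat] at h5
  have hX1 : 1 ≤ 2 * n * V⁻¹ * S / (d * |q l|) := by
    rw [le_div_iff₀ (by positivity), one_mul]
    have h5 : (1 : ℝ) ≤ V⁻¹ := (one_le_inv₀ hVpos).2 hV1
    calc d * |q l| ≤ 1 * S := by gcongr
      _ ≤ (2 * n * V⁻¹) * S := by
          gcongr
          nlinarith
  have hlogX0 := Real.log_nonneg hX1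
  have h8 : 1 + Real.log (2 * n * V⁻¹ * S / (d * |q l|)) ≤ 7 * Real.log Y := by linarith
  calc C * n * (1 + Real.log (2 * n * V⁻¹ * S / (d * |q l|))) ^ 4
      ≤ C * n * (7 * Real.log Y) ^ 4 := by gcongr
    _ = (2401 * C) * n * Real.log Y ^ 4 := by ring

/-- Smoothed analysis of the number of equilibria of `n` point charges.
(i) One random charge; (ii) one charge moved by at most `σ`; (iii) all charges random. -/
theorem result : ∃ C : ℝ, 0 < C ∧
    (∀ (n : ℕ) (q : Fin n → ℝ) (a : Fin n → EuclideanSpace ℝ (Fin 3)) (l : Fin n)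
      (d Λ t : ℝ) (μ : Measure (EuclideanSpace ℝ (Fin 3))),
      (∀ j, q j ≠ 0) → (∀ j, j ≠ l → ‖a j‖ ≤ 1) → 0 < d → d ≤ 1 →
      (∀ i j, i ≠ l → j ≠ l → i ≠ j → d ≤ dist (a i) (a j)) → 1 ≤ Λ →
      μ ≤ ENNReal.ofReal Λ • volume.restrict (closedBall 0 1) → 0 ≤ t →
      μ {z : EuclideanSpace ℝ (Fin 3) | ¬ ((equilibria q (Function.update a l z)).Finite ∧
        ((equilibria q (Function.update a l z)).ncard : ℝ) ≤
          C * n * (t + Real.log (2 * n * Λ * (∑ j, |q j|) / (d * |q l|))) ^ 4)} ≤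
        ENNReal.ofReal (Real.exp (-t))) ∧
    (∀ (n : ℕ) (q : Fin n → ℝ) (a : Fin n → EuclideanSpace ℝ (Fin 3)) (l : Fin n) (d σ : ℝ),
      (∀ j, q j ≠ 0) → (∀ j, ‖a j‖ ≤ 1) → 0 < d → d ≤ 1 →
      (∀ i j, i ≠ l → j ≠ l → i ≠ j → d ≤ dist (a i) (a j)) → 0 < σ → σ ≤ 1 →
      ∃ z, dist z (a l) ≤ σ ∧ (equilibria q (Function.update a l z)).Finite ∧
        ((equilibria q (Function.update a l z)).ncard : ℝ) ≤
          C * n * Real.log (2 * n * (∑ j, |q j|) / (d * σ * |q l|)) ^ 4) ∧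
    (∀ (n : ℕ) (q : Fin n → ℝ) (Λ t : ℝ) (μ : Fin n → Measure (EuclideanSpace ℝ (Fin 3))),
      1 ≤ n → (∀ j, q j ≠ 0) → 1 ≤ Λ → (∀ j, IsProbabilityMeasure (μ j)) →
      (∀ j, μ j ≤ ENNReal.ofReal Λ • volume.restrict (closedBall 0 1)) → 0 ≤ t →
      Measure.pi μ {a : Fin n → EuclideanSpace ℝ (Fin 3) | ¬ ((equilibria q a).Finite ∧
        ((equilibria q a).ncard : ℝ) ≤ C * n * (t + Real.log (2 * n * Λ)) ^ 4)} ≤
        ENNReal.ofReal (Real.exp (-t))) := by
  obtain ⟨C₁, hC₁, h1⟩ := SM992.one_charge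
  obtain ⟨C₂, hC₂, h2⟩ := SM992.all_charges
  refine ⟨2401 * C₁ + C₂, by positivity, ?_, ?_, ?_⟩
  · intro n q a l d Λ t μ hq ha hd hd1 hsep hΛ hμ ht
    refine (measure_mono ?_).trans (h1 n q a l d Λ t μ hq ha hd hd1 hsep hΛ hμ ht)
    intro z hz hz2
    refine hz ⟨hz2.1, hz2.2.trans ?_⟩
    have h4 : (0 : ℝ) ≤ (t + Real.log (2 * n * Λ * (∑ j, |q j|) / (d * |q l|))) ^ 4 := by
      positivity
    gcongr
    linarith
  · intro n q a l d σ hq ha hd hd1 hsep hσ hσ1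
    obtain ⟨z, hz1, hz2, hz3⟩ := move C₁ hC₁ h1 n q a l d σ hq ha hd hd1 hsep hσ hσ1
    refine ⟨z, hz1, hz2, hz3.trans ?_⟩
    have h4 : (0 : ℝ) ≤ Real.log (2 * n * (∑ j, |q j|) / (d * σ * |q l|)) ^ 4 := by
      positivity
    gcongr
    linarith
  · intro n q Λ t μ hn hq hΛ hμ1 hμ ht
    refine (measure_mono ?_).trans (h2 n q Λ t μ hn hq hΛ hμ1 hμ ht)
    intro a ha ha2
    refine ha ⟨ha2.1, ha2.2.trans ?_⟩
    have h4 : (0 : ℝ) ≤ (t + Real.log (2 * n * Λ)) ^ 4 := by positivity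
    gcongr
    linarith

end Pool.Agent.Results.MP_992d6e_an.SmoothedBound
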